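import Mathlib

/-!
# Subspaces of vector spaces over a division algebra

`D` is a division algebra of finite dimension over an infinite field `k`. A `k`-subspace `W` of a
`D`-vector space `H` with `dim W ≤ dim V` can be mapped injectively to the `D`-vector space `V` by a
`D`-linear map defined on `H`.
-/

set_option autoImplicit false

namespace Pool.Agent.X298.DA

open MvPolynomial Module

variable {k : Type} [Field k] [Infinite k] {D : Type} [DivisionRing D] [Algebra k D]
  [FiniteDimensional k D]

/-- More polynomials than variables are algebraically dependent. -/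
theorem exists_rel {σ : Type} [Fintype σ] {b : ℕ} (hb : Fintype.card σ < b)
    (f : Fin b → MvPolynomial σ k) : ∃ F : MvPolynomial (Fin b) k, F ≠ 0 ∧ aeval f F = 0 := by
  by_contra hcon
  push Not at hcon
  have hind : AlgebraicIndependent k f := by
    rw [algebraicIndependent_iff]
    intro p hp
    by_contra h
    exact hcon p h hp
  have h1 := hind.cardinalMk_le_trdeg
  rw [MvPolynomial.trdeg_of_isDomain] at h1
  simp only [Cardinal.lift_id, Cardinal.mk_fintype, Fintype.card_fin] at h1
  have h2 : b ≤ Fintype.card σ := by exact_mod_cast h1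
  omega

/-- There is a vector whose line over `D` meets `W` in zero only. -/
theorem exists_avoid {h : ℕ} (W : Submodule k (Fin h → D))
    (hW : finrank k W + finrank k D ≤ finrank k (Fin h → D)) :
    ∃ v : Fin h → D, v ≠ 0 ∧ ∀ d : D, d • v ∈ W → d = 0 := by
  classical
  have hWfin : FiniteDimensional k W := inferInstance
  set H := Fin h → D with hH
  set b := finrank k H with hb
  let bH : Basis (Fin b) k H := finBasis k H
  let bD : Basis (Fin (finrank k D)) k D := finBasis k D
  let bW : Basis (Fin (finrank k W)) k W := finBasis k W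
  have hDpos : 0 < finrank k D := finrank_pos
  have hbpos : 0 < b := by omega
  let l0 : Fin b := ⟨0, hbpos⟩
  -- the parametrisations
  let f : (i : Fin (finrank k W)) → Fin b →
      MvPolynomial (Fin (finrank k D) ⊕ {j : Fin (finrank k W) // j ≠ i}) k := fun i l =>
    ∑ s, ∑ j, C (bH.repr (bD s • (bW j : H)) l) * X (Sum.inl s) *
      (if hj : j = i then 1 else X (Sum.inr ⟨j, hj⟩))
  have hcard : ∀ i : Fin (finrank k W),
      Fintype.card (Fin (finrank k D) ⊕ {j : Fin (finrank k W) // j ≠ i}) < b := by
    intro i
    rw [Fintype.card_sum, Fintype.card_fin, Fintype.card_subtype_compl, Fintype.card_fin,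
      Fintype.card_subtype_eq]
    have := i.2
    omega
  choose F hF0 hF using fun i => exists_rel (hcard i) (f i)
  have hprod : X l0 * ∏ i, F i ≠ 0 :=
    mul_ne_zero (X_ne_zero _) (Finset.prod_ne_zero_iff.mpr fun i _ => hF0 i)
  obtain ⟨c, hc⟩ : ∃ c : Fin b → k, eval c (X l0 * ∏ i, F i) ≠ 0 := by
    by_contra hcon
    push Not at hcon
    exact hprod (MvPolynomial.funext fun x => by rw [hcon x, map_zero])
  rw [map_mul, eval_X, map_prod] at hc
  have hc0 : c l0 ≠ 0 := left_ne_zero_of_mul hc
  have hcF : ∀ i, eval c (F i) ≠ 0 := fun i =>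
    Finset.prod_ne_zero_iff.mp (right_ne_zero_of_mul hc) i (Finset.mem_univ i)
  let v : H := bH.equivFun.symm c
  have hvc : ∀ l, bH.repr v l = c l := by
    intro l
    have := congrFun (bH.equivFun.apply_symm_apply c) l
    simpa only [Basis.equivFun_apply] using this
  refine ⟨v, ?_, ?_⟩
  · intro hv
    apply hc0
    rw [← hvc l0, hv, map_zero]
    rfl
  · intro d hd
    by_contra hd0
    -- the element of `W`
    let w : W := ⟨d • v, hd⟩
    have hv0 : v ≠ 0 := by
      intro hv
      apply hc0
      rw [← hvc l0, hv, map_zero]
      rfl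
    have hw0 : w ≠ 0 := by
      intro hw
      have h1 : d • v = 0 := congrArg Subtype.val hw
      rcases smul_eq_zero.mp h1 with h2 | h2
      · exact hd0 h2
      · exact hv0 h2
    obtain ⟨i, hi⟩ : ∃ i, bW.repr w i ≠ 0 := by
      by_contra hcon
      push Not at hcon
      apply hw0
      apply bW.repr.injective
      ext i
      rw [hcon i, map_zero]
      rfl
    set t := bW.repr w i with ht
    -- the rescaled elements
    let d' : D := t • d⁻¹
    let y : Fin (finrank k W) → k := fun j => t⁻¹ * bW.repr w j
    have hyi : y i = 1 := by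
      change t⁻¹ * t = 1
      exact inv_mul_cancel₀ hi
    have hvd : v = d' • (∑ j, y j • (bW j : H)) := by
      have h1 : (∑ j, bW.repr w j • (bW j : H)) = d • v := by
        have := congrArg Subtype.val (bW.sum_repr w)
        simpa only [AddSubmonoidClass.coe_finsetSum, SetLike.val_smul] using this
      have h2 : (∑ j, y j • (bW j : H)) = t⁻¹ • (d • v) := by
        rw [← h1, Finset.smul_sum]
        refine Finset.sum_congr rfl fun j _ => ?_
        rw [smul_smul]
      rw [h2]
      change v = (t • d⁻¹) • (t⁻¹ • (d • v))
      rw [smul_assoc, smul_comm (d⁻¹) (t⁻¹), smul_smul t, mul_inv_cancel₀ hi, one_smul, smul_smul,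
        inv_mul_cancel₀ hd0, one_smul]
    -- the point
    let pt : (Fin (finrank k D) ⊕ {j : Fin (finrank k W) // j ≠ i}) → k :=
      Sum.elim (fun s => bD.repr d' s) (fun j => y j.1)
    have hcoord : ∀ l, c l = eval pt (f i l) := by
      intro l
      have h1 : d' = ∑ s, bD.repr d' s • bD s := (bD.sum_repr d').symm
      have h2 : v = ∑ s, ∑ j, (bD.repr d' s * y j) • (bD s • (bW j : H)) := by
        rw [hvd]
        conv_lhs => rw [h1]
        rw [Finset.sum_smul]
        refine Finset.sum_congr rfl fun s _ => ?_
        rw [Finset.smul_sum]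
        refine Finset.sum_congr rfl fun j _ => ?_
        rw [smul_assoc, smul_comm (bD s) (y j), smul_smul]
      rw [← hvc l, h2, map_sum, Finsupp.finsetSum_apply, map_sum]
      refine Finset.sum_congr rfl fun s _ => ?_
      rw [map_sum, Finsupp.finsetSum_apply, map_sum]
      refine Finset.sum_congr rfl fun j _ => ?_
      rw [map_smul, Finsupp.smul_apply, smul_eq_mul, map_mul, map_mul, eval_C, eval_X]
      by_cases hj : j = i
      · rw [dif_pos hj, map_one, hj, hyi]
        simp only [pt, Sum.elim_inl]
        ring
      · rw [dif_neg hj, eval_X]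
        simp only [pt, Sum.elim_inl, Sum.elim_inr]
        ring
    apply hcF i
    have h3 : c = fun l => eval pt (f i l) := funext hcoord
    have h4 : eval c (F i) = eval pt (aeval (f i) (F i)) := by
      rw [h3]
      rw [← MvPolynomial.coe_aeval_eq_eval, ← MvPolynomial.coe_aeval_eq_eval]
      change aeval (fun l => aeval pt (f i l)) (F i) = aeval pt (aeval (f i) (F i))
      rw [← AlgHom.comp_apply]
      congr 1
      ext l
      simp
    rw [h4, hF i, map_zero]

end Pool.Agent.X298.DA
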