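import Pool.Agent.X298.DA.Conv

/-!
# Bases of the Mordell–Weil group over the ring of endomorphisms, up to finite index
-/

set_option autoImplicit false

namespace Pool.Agent.X298.DA

open Module Pool.Agent.X268.PC

/-- The points `x_1, …, x_h` are independent over the ring `R` of endomorphisms and every element of `M`
has a nonzero integral multiple in `R x_1 + … + R x_h`. -/
def IsEndBasis (R : Type) {M : Type} [Ring R] [AddCommGroup M] [Module R M] {h : ℕ}
    (x : Fin h → M) : Prop :=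
  (∀ r : Fin h → R, ∑ i, r i • x i = 0 → r = 0) ∧
    ∀ y : M, ∃ k : ℤ, k ≠ 0 ∧ ∃ r : Fin h → R, k • y = ∑ i, r i • x i

variable {n : ℕ} {M R : Type} [AddCommGroup M] [Ring R] [Module R M]

theorem charZero_of_lie (hn : 1 ≤ n) (lie : R →+* Matrix (Fin n) (Fin n) ℚ) : CharZero R := by
  have : Nonempty (Fin n) := ⟨⟨0, hn⟩⟩
  let i0 : Fin n := ⟨0, hn⟩
  have h1 : CharZero (Matrix (Fin n) (Fin n) ℚ) := by
    refine ⟨fun a b hab => ?_⟩
    have h2 := congrFun (congrFun hab i0) i0
    simpa [Matrix.natCast_apply] using h2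
  exact ⟨fun a b hab => Nat.cast_injective (R := Matrix (Fin n) (Fin n) ℚ) (by
    have h2 := congrArg lie hab
    simpa using h2)⟩

/-- Bases exist. -/
theorem exists_endBasis (hchar : CharZero R) (hM : Module.Finite ℤ M) (hR : Module.Finite ℤ R)
    (hdom : ∀ r s : R, r * s = 0 → r = 0 ∨ s = 0) :
    ∃ (h : ℕ) (x : Fin h → M), IsEndBasis R x := by
  classical
  let Q : ℕ → Prop := fun h => ∃ x : Fin h → M, ∀ r : Fin h → R, ∑ i, r i • x i = 0 → r = 0
  have hQb : ∀ h, Q h → h ≤ finrank ℤ M := by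
    rintro h ⟨x, hx⟩
    have h1 : LinearIndependent ℤ x := by
      rw [Fintype.linearIndependent_iff]
      intro q hq i
      have h2 := hx (fun i => (q i : R)) (by
        rw [← hq]
        exact Finset.sum_congr rfl fun i _ => Int.cast_smul_eq_zsmul R (q i) (x i))
      have h3 : (q i : R) = 0 := congrFun h2 i
      exact_mod_cast h3
    have h2 := h1.fintype_card_le_finrank
    rwa [Fintype.card_fin] at h2
  have hQ0 : Q 0 := ⟨Fin.elim0, fun r _ => by funext i; exact Fin.elim0 i⟩
  set H := Nat.findGreatest Q (finrank ℤ M) with hH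
  have hQH : Q H := Nat.findGreatest_spec (P := Q) (Nat.zero_le _) hQ0
  obtain ⟨x, hx⟩ := hQH
  refine ⟨H, x, hx, fun y => ?_⟩
  have hnot : ¬ Q (H + 1) := by
    intro hcon
    have h1 := Nat.le_findGreatest (hQb _ hcon) hcon
    omega
  have h1 : ¬ ∀ r : Fin (H + 1) → R, ∑ i, r i • (Fin.cons y x : Fin (H + 1) → M) i = 0 → r = 0 :=
    fun hcon => hnot ⟨_, hcon⟩
  push Not at h1
  obtain ⟨r, hr, hr0⟩ := h1
  rw [Fin.sum_univ_succ] at hr
  simp only [Fin.cons_zero, Fin.cons_succ] at hr
  have hr00 : r 0 ≠ 0 := by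
    intro h2
    apply hr0
    rw [h2, zero_smul, zero_add] at hr
    have h3 := hx (fun i => r i.succ) hr
    funext i
    refine Fin.cases h2 (fun j => ?_) i
    exact congrFun h3 j
  obtain ⟨N, hN, r', hr'⟩ := exists_left_inv R hR hdom (r 0) hr00
  refine ⟨N, hN, fun i => -(r' * r i.succ), ?_⟩
  have h2 : r 0 • y = -∑ i, r i.succ • x i := by
    rw [eq_neg_iff_add_eq_zero]
    exact hr
  calc N • y = (N : R) • y := (Int.cast_smul_eq_zsmul R N y).symm
    _ = r' • (r 0 • y) := by rw [← hr', mul_smul]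
    _ = -(r' • ∑ i, r i.succ • x i) := by rw [h2, smul_neg]
    _ = ∑ i, -(r' * r i.succ) • x i := by
        rw [Finset.smul_sum, ← Finset.sum_neg_distrib]
        exact Finset.sum_congr rfl fun i _ => by rw [neg_smul, mul_smul]

end Pool.Agent.X298.DA
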