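import Pool.Agent.X298.DA.Minor

/-!
# The logarithms of generators of `L` are independent if the closure of `L` has the right rank
-/

set_option autoImplicit false

namespace Pool.Agent.X298.DA

open Module Pool.Agent.X268.PC

variable {p : ℕ} [Fact p.Prime] {n : ℕ} {M R P : Type} [AddCommGroup M] [Ring R]
  [Module R M] [AddCommGroup P] [TopologicalSpace P] [IsTopologicalAddGroup P]
  [CompactSpace P] [T2Space P]

/-- A finite family of `p`-adic numbers has a common denominator. -/
theorem exists_denom {m : ℕ} (a : Fin m → ℚ_[p]) : ∃ N : ℕ, ∀ i, ‖(p : ℚ_[p]) ^ N * a i‖ ≤ 1 := by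
  classical
  have hp1 : (1 : ℝ) < p := by exact_mod_cast (Fact.out : p.Prime).one_lt
  have hone : ∀ i, ∃ N : ℕ, ‖a i‖ ≤ (p : ℝ) ^ N := fun i =>
    (pow_unbounded_of_one_lt ‖a i‖ hp1).imp fun N hN => hN.le
  choose N hN using hone
  refine ⟨∑ i, N i, fun i => ?_⟩
  rw [norm_mul, norm_pow, Padic.norm_p, inv_pow]
  have hpos : (0 : ℝ) < (p : ℝ) ^ (∑ i, N i) := by positivity
  rw [inv_mul_le_iff₀ hpos, mul_one]
  refine le_trans (hN i) (pow_le_pow_right₀ hp1.le ?_)
  exact Finset.single_le_sum (fun _ _ => Nat.zero_le _) (Finset.mem_univ i)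

theorem indep_of_hasZpRank (S : SimpleAV p n M R P) (L : AddSubgroup M) {m : ℕ} (y : Fin m → M)
    (K : ℤ) (hK : K ≠ 0)
    (hmax : ∀ z ∈ L, ∃ b : Fin m → ℤ, K • z = ∑ i, b i • y i)
    (hH : HasZpRank p (L.map S.emb).topologicalClosure m) :
    LinearIndependent ℚ_[p] (fun j => S.lg (S.emb (y j))) := by
  classical
  obtain ⟨U, hUH, -, -, ⟨e⟩⟩ := hH
  set Sp : Submodule ℚ_[p] (Fin n → ℚ_[p]) :=
    Submodule.span ℚ_[p] (Set.range fun j => S.lg (S.emb (y j))) with hSp
  have hSpcl : IsClosed (Sp : Set (Fin n → ℚ_[p])) := Submodule.closed_of_finiteDimensional _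
  have hlg : ∀ z ∈ (L.map S.emb).topologicalClosure, S.lg z ∈ Sp := by
    intro z hz
    have h1 : ((L.map S.emb : AddSubgroup P) : Set P) ⊆ S.lg ⁻¹' (Sp : Set _) := by
      rintro _ ⟨x, hx, rfl⟩
      obtain ⟨b, hb⟩ := hmax x hx
      have h2 : (K : ℚ_[p]) • S.lg (S.emb x) = ∑ j, (b j : ℚ_[p]) • S.lg (S.emb (y j)) := by
        have h3 := congrArg (fun t => S.lg (S.emb t)) hb
        simp only [map_zsmul, map_sum] at h3
        rw [Int.cast_smul_eq_zsmul, h3]
        refine Finset.sum_congr rfl fun j _ => ?_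
        rw [Int.cast_smul_eq_zsmul]
      have hKp : (K : ℚ_[p]) ≠ 0 := by exact_mod_cast hK
      have h4 : S.lg (S.emb x) = (K : ℚ_[p])⁻¹ • ∑ j, (b j : ℚ_[p]) • S.lg (S.emb (y j)) := by
        rw [← h2, smul_smul, inv_mul_cancel₀ hKp, one_smul]
      change S.lg (S.emb x) ∈ Sp
      rw [h4]
      exact Sp.smul_mem _ (Sp.sum_mem fun j _ => Sp.smul_mem _
        (Submodule.subset_span (Set.mem_range_self j)))
    have h2 : IsClosed (S.lg ⁻¹' (Sp : Set (Fin n → ℚ_[p]))) := hSpcl.preimage S.lg_continuous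
    have h3 := closure_minimal h1 h2
    exact h3 hz
  -- the logarithm on `U`
  let g : (Fin m → ℤ_[p]) →+ (Fin n → ℚ_[p]) :=
    (S.lg.comp U.subtype).comp e.symm.toAddMonoidHom
  have hgdef : ∀ w, g w = S.lg (e.symm w : U) := fun _ => rfl
  have hgc : Continuous g := S.lg_continuous.comp (continuous_subtype_val.comp e.symm.continuous)
  have hginj : ∀ w, g w = 0 → w = 0 := by
    intro w hw
    have h1 := (S.lg_ker _).mp hw
    obtain ⟨t, ht, ht0⟩ := isOfFinAddOrder_iff_nsmul_eq_zero.mp h1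
    have h2 : t • (e.symm w) = 0 := Subtype.ext ht0
    have h3 : t • w = 0 := by
      have := congrArg e h2
      rwa [map_nsmul, ContinuousAddEquiv.apply_symm_apply, map_zero] at this
    funext i
    have h4 := congrFun h3 i
    simp only [Pi.smul_apply, Pi.zero_apply, nsmul_eq_mul] at h4
    rcases mul_eq_zero.mp h4 with h5 | h5
    · exact absurd h5 (by exact_mod_cast ht.ne')
    · exact h5
  -- images of the unit vectors
  let f : Fin m → (Fin n → ℚ_[p]) := fun j => g (Pi.single j 1)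
  have hf : LinearIndependent ℚ_[p] f := by
    rw [Fintype.linearIndependent_iff]
    intro a ha
    obtain ⟨N, hN⟩ := exists_denom a
    let a' : Fin m → ℤ_[p] := fun i => ⟨(p : ℚ_[p]) ^ N * a i, hN i⟩
    have h1 : g a' = 0 := by
      have h2 : a' = ∑ i, a' i • (Pi.single i (1 : ℤ_[p]) : Fin m → ℤ_[p]) := by
        funext i
        rw [Finset.sum_apply, Finset.sum_eq_single i]
        · rw [Pi.smul_apply, Pi.single_eq_same, smul_eq_mul, mul_one]
        · intro b _ hb
          rw [Pi.smul_apply, Pi.single_eq_of_ne (Ne.symm hb), smul_zero]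
        · intro hi
          exact absurd (Finset.mem_univ i) hi
      rw [h2, map_sum]
      calc ∑ i, g (a' i • (Pi.single i (1 : ℤ_[p]) : Fin m → ℤ_[p]))
          = ∑ i, ((p : ℚ_[p]) ^ N * a i) • f i :=
            Finset.sum_congr rfl fun i _ => map_padic_smul g hgc _ _
        _ = (p : ℚ_[p]) ^ N • ∑ i, a i • f i := by
            rw [Finset.smul_sum]
            exact Finset.sum_congr rfl fun i _ => by rw [smul_smul]
        _ = 0 := by rw [ha, smul_zero]
    have h3 := hginj _ h1
    intro i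
    have h4 := congrArg (fun z : ℤ_[p] => (z : ℚ_[p])) (congrFun h3 i)
    have h5 : (p : ℚ_[p]) ^ N * a i = 0 := h4
    rcases mul_eq_zero.mp h5 with h6 | h6
    · exact absurd h6 (pow_ne_zero _ (by exact_mod_cast (Fact.out : p.Prime).ne_zero))
    · exact h6
  have hfSp : Submodule.span ℚ_[p] (Set.range f) ≤ Sp := by
    rw [Submodule.span_le]
    rintro _ ⟨j, rfl⟩
    exact hlg _ (hUH (e.symm (Pi.single j 1)).2)
  have hrk : m ≤ finrank ℚ_[p] Sp := by
    have h1 := finrank_span_eq_card hf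
    rw [Fintype.card_fin] at h1
    rw [← h1]
    exact Submodule.finrank_mono hfSp
  rw [linearIndependent_iff_card_le_finrank_span, Fintype.card_fin]
  exact hrk

end Pool.Agent.X298.DA
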