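import Pool.Agent.X298.DA.Embed

set_option autoImplicit false

namespace Pool.Agent.X298.DA

open Module

/-- The same for finite dimensional domains. -/
theorem exists_inj_dom {k : Type} [Field k] [Infinite k] {D : Type} [Ring D] [IsDomain D]
    [Algebra k D] [FiniteDimensional k D] {V : Type} [AddCommGroup V] [Module k V] [Module D V]
    [IsScalarTower k D V] (h : ℕ) (W : Submodule k (Fin h → D))
    (hV : Module.Finite D V) (hW : finrank k W ≤ finrank k V) :
    ∃ T : (Fin h → D) →ₗ[D] V, ∀ x ∈ W, T x = 0 → x = 0 := by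
  let : DivisionRing D := divisionRingOfFiniteDimensional k D
  have := hV
  exact exists_inj h W hW

variable {n : ℕ} {R : Type} [Ring R]

/-- The `ℚ`-algebra of the rational multiples of the matrices `lie r`. -/
def ratAlg (lie : R →+* Matrix (Fin n) (Fin n) ℚ) : Subalgebra ℚ (Matrix (Fin n) (Fin n) ℚ) where
  carrier := {A | ∃ N : ℤ, N ≠ 0 ∧ ∃ r : R, (N : ℚ) • A = lie r}
  mul_mem' := by
    rintro A B ⟨N, hN, r, hr⟩ ⟨N', hN', s, hs⟩
    refine ⟨N * N', mul_ne_zero hN hN', r * s, ?_⟩
    rw [map_mul, ← hr, ← hs, smul_mul_smul_comm, Int.cast_mul]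
  add_mem' := by
    rintro A B ⟨N, hN, r, hr⟩ ⟨N', hN', s, hs⟩
    refine ⟨N * N', mul_ne_zero hN hN', N' • r + N • s, ?_⟩
    rw [map_add, map_zsmul, map_zsmul, ← hr, ← hs, smul_add, Int.cast_mul,
      ← Int.cast_smul_eq_zsmul ℚ N', ← Int.cast_smul_eq_zsmul ℚ N, smul_smul, smul_smul,
      mul_comm (N' : ℚ) (N : ℚ)]
  algebraMap_mem' := by
    intro q
    refine ⟨q.den, by exact_mod_cast q.den_ne_zero, (q.num : R), ?_⟩
    rw [map_intCast, Algebra.algebraMap_eq_smul_one, smul_smul]
    have h1 : ((q.den : ℤ) : ℚ) * q = (q.num : ℚ) := by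
      have := Rat.mul_den_eq_num q
      rw [mul_comm]
      exact_mod_cast this
    rw [h1]
    ext i j
    simp [Matrix.one_apply, Matrix.intCast_apply]

theorem lie_mem (lie : R →+* Matrix (Fin n) (Fin n) ℚ) (r : R) : lie r ∈ ratAlg lie :=
  ⟨1, one_ne_zero, r, by rw [Int.cast_one, one_smul]⟩

theorem isDomain_ratAlg (lie : R →+* Matrix (Fin n) (Fin n) ℚ) (hn : 1 ≤ n)
    (hinj : Function.Injective lie) (hdom : ∀ r s : R, r * s = 0 → r = 0 ∨ s = 0) :
    IsDomain (ratAlg lie) := by
  have : Nonempty (Fin n) := ⟨⟨0, hn⟩⟩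
  have : Nontrivial (ratAlg lie) := inferInstance
  have : NoZeroDivisors (ratAlg lie) := by
    refine ⟨fun {A B} hAB => ?_⟩
    obtain ⟨N, hN, r, hr⟩ := A.2
    obtain ⟨N', hN', s, hs⟩ := B.2
    have h1 : lie (r * s) = 0 := by
      rw [map_mul, ← hr, ← hs, smul_mul_smul_comm]
      have : (A : Matrix (Fin n) (Fin n) ℚ) * (B : Matrix (Fin n) (Fin n) ℚ) = 0 :=
        congrArg Subtype.val hAB
      rw [this, smul_zero]
    have h2 : r * s = 0 := hinj (by rw [h1, map_zero])
    have hNQ : (N : ℚ) ≠ 0 := by exact_mod_cast hN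
    have hNQ' : (N' : ℚ) ≠ 0 := by exact_mod_cast hN'
    rcases hdom r s h2 with h3 | h3
    · left
      apply Subtype.ext
      rw [h3, map_zero] at hr
      exact (smul_eq_zero.mp hr).resolve_left hNQ
    · right
      apply Subtype.ext
      rw [h3, map_zero] at hs
      exact (smul_eq_zero.mp hs).resolve_left hNQ'
  exact NoZeroDivisors.to_isDomain _

/-- **The avoidance theorem for orders.**  For `m ≤ n` rows of `h` endomorphisms, independent over
`ℤ`, there are rational vectors `t_1, …, t_h` such that the `m` vectors `∑ᵢ w_{ji} tᵢ` are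
independent. -/
theorem exists_vectors (lie : R →+* Matrix (Fin n) (Fin n) ℚ) (hn : 1 ≤ n)
    (hinj : Function.Injective lie) (hdom : ∀ r s : R, r * s = 0 → r = 0 ∨ s = 0)
    {m h : ℕ} (hm : m ≤ n) (w : Fin m → Fin h → R)
    (hw : ∀ q : Fin m → ℤ, (∀ i, ∑ j, q j • w j i = 0) → q = 0) :
    ∃ t : Fin h → Fin n → ℚ,
      LinearIndependent ℚ (fun j => ∑ i, (lie (w j i)).mulVec (t i)) := by
  classical
  have := isDomain_ratAlg lie hn hinj hdom
  set D := ratAlg lie with hD
  have : FiniteDimensional ℚ D := inferInstance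
  let φ : D →+* Module.End ℚ (Fin n → ℚ) :=
    ((Matrix.toLinAlgEquiv' : Matrix (Fin n) (Fin n) ℚ ≃ₐ[ℚ] _).toRingEquiv.toRingHom).comp
      D.val.toRingHom
  let : Module D (Fin n → ℚ) := Module.compHom (Fin n → ℚ) φ
  have hsmul : ∀ (d : D) (v : Fin n → ℚ), d • v = (d : Matrix (Fin n) (Fin n) ℚ).mulVec v := by
    intro d v
    change (Matrix.toLinAlgEquiv' (d : Matrix (Fin n) (Fin n) ℚ)) v = _
    rw [Matrix.toLinAlgEquiv'_apply]
  have : IsScalarTower ℚ D (Fin n → ℚ) := by
    refine ⟨fun q d v => ?_⟩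
    rw [hsmul, hsmul]
    change (q • (d : Matrix (Fin n) (Fin n) ℚ)).mulVec v = _
    rw [Matrix.smul_mulVec]
  have hVfin : Module.Finite D (Fin n → ℚ) := Module.Finite.of_restrictScalars_finite ℚ D _
  let W' : Fin m → Fin h → D := fun j i => ⟨lie (w j i), lie_mem lie _⟩
  let W : Submodule ℚ (Fin h → D) := Submodule.span ℚ (Set.range W')
  have hWr : finrank ℚ W ≤ finrank ℚ (Fin n → ℚ) := by
    rw [finrank_fin_fun]
    refine le_trans (finrank_range_le_card W') ?_
    rw [Fintype.card_fin]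
    exact hm
  obtain ⟨T, hT⟩ := exists_inj_dom h W hVfin hWr
  have hW'ind : LinearIndependent ℚ W' := by
    rw [← LinearIndependent.iff_fractionRing ℤ ℚ, Fintype.linearIndependent_iff]
    intro q hq
    have h1 : q = 0 := by
      apply hw
      intro i
      apply hinj
      have h2 := congrArg Subtype.val (congrFun hq i)
      rw [map_sum, map_zero]
      simp only [Finset.sum_apply, Pi.smul_apply, AddSubmonoidClass.coe_finsetSum] at h2
      rw [show ((0 : Fin h → D) i : Matrix (Fin n) (Fin n) ℚ) = 0 from rfl] at h2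
      rw [← h2]
      refine Finset.sum_congr rfl fun j _ => ?_
      rw [map_zsmul]
      rfl
    intro i
    rw [h1]
    rfl
  refine ⟨fun i => T (Pi.single i 1), ?_⟩
  have hTW : ∀ j, T (W' j) = ∑ i, (lie (w j i)).mulVec (T (Pi.single i 1)) := by
    intro j
    have h1 : W' j = ∑ i, W' j i • (Pi.single i (1 : D) : Fin h → D) := by
      funext i
      rw [Finset.sum_apply, Finset.sum_eq_single i]
      · rw [Pi.smul_apply, Pi.single_eq_same, smul_eq_mul, mul_one]
      · intro b _ hb
        rw [Pi.smul_apply, Pi.single_eq_of_ne (Ne.symm hb), smul_zero]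
      · intro hi
        exact absurd (Finset.mem_univ i) hi
    conv_lhs => rw [h1]
    rw [map_sum]
    refine Finset.sum_congr rfl fun i _ => ?_
    rw [map_smul, hsmul]
  have h3 : (fun j => ∑ i, (lie (w j i)).mulVec (T (Pi.single i 1))) = fun j => T (W' j) :=
    funext fun j => (hTW j).symm
  rw [h3, Fintype.linearIndependent_iff]
  intro q hq
  have h4 : T (∑ j, q j • W' j) = 0 := by
    rw [map_sum, ← hq]
    refine Finset.sum_congr rfl fun j _ => ?_
    rw [← algebraMap_smul D (q j) (W' j), map_smul, hsmul]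
    rw [Algebra.algebraMap_eq_smul_one]
    change (q j • (1 : Matrix (Fin n) (Fin n) ℚ)).mulVec (T (W' j)) = _
    rw [Matrix.smul_mulVec, Matrix.one_mulVec]
  have h5 := hT _ (Submodule.sum_mem _ fun j _ => Submodule.smul_mem _ _
    (Submodule.subset_span (Set.mem_range_self j))) h4
  exact Fintype.linearIndependent_iff.mp hW'ind q h5

end Pool.Agent.X298.DA
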