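import Pool.Agent.X298.DA.Avoid

/-!
# Injective images of `k`-subspaces under `D`-linear maps
-/

set_option autoImplicit false

namespace Pool.Agent.X298.DA

open Module

variable {k : Type} [Field k] [Infinite k] {D : Type} [DivisionRing D] [Algebra k D]
  [FiniteDimensional k D] {V : Type} [AddCommGroup V] [Module k V] [Module D V]
  [IsScalarTower k D V] [Module.Finite D V]

theorem exists_inj (h : ℕ) : ∀ (W : Submodule k (Fin h → D)), finrank k W ≤ finrank k V →
    ∃ T : (Fin h → D) →ₗ[D] V, ∀ x ∈ W, T x = 0 → x = 0 := by
  classical
  induction h with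
  | zero =>
    intro W _
    exact ⟨0, fun x _ _ => Subsingleton.elim _ _⟩
  | succ h ih =>
    intro W hW
    by_cases hle : h + 1 ≤ finrank D V
    · -- there is an injective map
      obtain ⟨g, hg⟩ := exists_linearIndependent_of_le_finrank (R := D) (M := V) hle
      refine ⟨Fintype.linearCombination D g, fun x _ hx => ?_⟩
      have h1 := Fintype.linearIndependent_iff.mp hg x hx
      funext i
      exact h1 i
    · push Not at hle
      have hdim : finrank k W + finrank k D ≤ finrank k (Fin (h + 1) → D) := by
        have h1 : finrank k (Fin (h + 1) → D) = (h + 1) * finrank k D := by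
          rw [finrank_pi_fintype, Finset.sum_const, Finset.card_univ, Fintype.card_fin,
            smul_eq_mul]
        have h2 : finrank k V = finrank k D * finrank D V :=
          (Module.finrank_mul_finrank (F := k) (K := D) (A := V)).symm
        rw [h1]
        rw [h2] at hW
        calc finrank k W + finrank k D ≤ finrank k D * finrank D V + finrank k D := by omega
          _ = finrank k D * (finrank D V + 1) := by ring
          _ ≤ finrank k D * (h + 1) := Nat.mul_le_mul_left _ hle
          _ = (h + 1) * finrank k D := by ring
      obtain ⟨v, hv0, hv⟩ := exists_avoid W hdim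
      -- a projection with kernel `D v`
      have hfr : finrank D ((Fin (h + 1) → D) ⧸ (Submodule.span D {v})) = finrank D (Fin h → D) := by
        have h1 := Submodule.finrank_quotient_add_finrank (Submodule.span D {v})
        rw [finrank_span_singleton hv0, finrank_fin_fun] at h1
        rw [finrank_fin_fun]
        omega
      let e : ((Fin (h + 1) → D) ⧸ (Submodule.span D {v})) ≃ₗ[D] (Fin h → D) :=
        LinearEquiv.ofFinrankEq _ _ hfr
      let π : (Fin (h + 1) → D) →ₗ[D] (Fin h → D) :=
        e.toLinearMap.comp (Submodule.span D {v}).mkQ
      have hπ : ∀ x, π x = 0 → ∃ d : D, x = d • v := by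
        intro x hx
        have h1 : (Submodule.span D {v}).mkQ x = 0 := by
          apply e.injective
          rw [map_zero]
          exact hx
        rw [Submodule.mkQ_apply, Submodule.Quotient.mk_eq_zero, Submodule.mem_span_singleton] at h1
        obtain ⟨d, hd⟩ := h1
        exact ⟨d, hd.symm⟩
      have hW' : finrank k (W.map (π.restrictScalars k)) ≤ finrank k V :=
        le_trans (Submodule.finrank_map_le _ _) hW
      obtain ⟨T, hT⟩ := ih (W.map (π.restrictScalars k)) hW'
      refine ⟨T.comp π, fun x hx hTx => ?_⟩
      have h1 : π x = 0 := hT (π x) ⟨x, hx, rfl⟩ hTx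
      obtain ⟨d, hd⟩ := hπ x h1
      have h2 : d = 0 := hv d (hd ▸ hx)
      rw [hd, h2, zero_smul]

end Pool.Agent.X298.DA
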