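import Pool.Agent.X298.DA.Basis

/-!
# The finite family of polynomials which governs the closure of `L` at all primes
-/

set_option autoImplicit false

namespace Pool.Agent.X298.DA

open Module Pool.Agent.X268.PC MvPolynomial

variable {n : ℕ} {M R : Type} [AddCommGroup M] [Ring R] [Module R M]

/-- The linear form giving the coordinate `l` of `∑ᵢ w_{ji} X_i`. -/
noncomputable def lin (lie : R →+* Matrix (Fin n) (Fin n) ℚ) {m h : ℕ} (w : Fin m → Fin h → R)
    (j : Fin m) (l : Fin n) : MvPolynomial (Fin h × Fin n) ℚ :=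
  ∑ i, ∑ l', C (lie (w j i) l l') * X (i, l')

/-- The minors. -/
noncomputable def minor (lie : R →+* Matrix (Fin n) (Fin n) ℚ) {m h : ℕ} (w : Fin m → Fin h → R)
    (c : Fin m → Fin n) : MvPolynomial (Fin h × Fin n) ℚ :=
  (Matrix.of fun j j' => lin lie w j (c j')).det

theorem lin_hom (lie : R →+* Matrix (Fin n) (Fin n) ℚ) {m h : ℕ} (w : Fin m → Fin h → R)
    (j : Fin m) (l : Fin n) : (lin lie w j l).IsHomogeneous 1 := by
  unfold lin
  refine IsHomogeneous.sum _ _ _ fun i _ => IsHomogeneous.sum _ _ _ fun l' _ => ?_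
  have h1 := (isHomogeneous_C (Fin h × Fin n) (lie (w j i) l l')).mul (isHomogeneous_X ℚ (i, l'))
  rwa [zero_add] at h1

theorem minor_hom (lie : R →+* Matrix (Fin n) (Fin n) ℚ) {m h : ℕ} (w : Fin m → Fin h → R)
    (c : Fin m → Fin n) : (minor lie w c).IsHomogeneous m := by
  unfold minor
  rw [Matrix.det_apply']
  refine IsHomogeneous.sum _ _ _ fun σ _ => ?_
  have h1 : (∏ j, (Matrix.of fun j j' => lin lie w j (c j')) (σ j) j).IsHomogeneous
      (∑ _j : Fin m, 1) :=
    IsHomogeneous.prod _ _ _ fun j _ => lin_hom lie w _ _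
  rw [Finset.sum_const, Finset.card_univ, Fintype.card_fin, smul_eq_mul, mul_one] at h1
  have h2 : (((Equiv.Perm.sign σ : ℤˣ) : ℤ) : MvPolynomial (Fin h × Fin n) ℚ)
      = C (((Equiv.Perm.sign σ : ℤˣ) : ℤ) : ℚ) := by
    rw [map_intCast]
  rw [h2]
  have h3 := (isHomogeneous_C (Fin h × Fin n) (((Equiv.Perm.sign σ : ℤˣ) : ℤ) : ℚ)).mul h1
  rwa [zero_add] at h3

/-- The row vectors. -/
noncomputable def rowv (lie : R →+* Matrix (Fin n) (Fin n) ℚ) {K : Type} [Field K] [Algebra ℚ K]
    {m h : ℕ} (w : Fin m → Fin h → R) (v : Fin h × Fin n → K) (j : Fin m) : Fin n → K :=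
  ∑ i, ((lie (w j i)).map (algebraMap ℚ K)).mulVec (fun l => v (i, l))

theorem aeval_lin (lie : R →+* Matrix (Fin n) (Fin n) ℚ) {K : Type} [Field K] [Algebra ℚ K]
    {m h : ℕ} (w : Fin m → Fin h → R) (v : Fin h × Fin n → K) (j : Fin m) (l : Fin n) :
    aeval v (lin lie w j l) = rowv lie w v j l := by
  unfold lin rowv
  rw [map_sum, Finset.sum_apply]
  refine Finset.sum_congr rfl fun i _ => ?_
  rw [map_sum, Matrix.mulVec, dotProduct]
  refine Finset.sum_congr rfl fun l' _ => ?_
  rw [map_mul, aeval_C, aeval_X, Matrix.map_apply]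

theorem aeval_minor (lie : R →+* Matrix (Fin n) (Fin n) ℚ) {K : Type} [Field K] [Algebra ℚ K]
    {m h : ℕ} (w : Fin m → Fin h → R) (v : Fin h × Fin n → K) (c : Fin m → Fin n) :
    aeval v (minor lie w c) = ((Matrix.of (rowv lie w v)).submatrix id c).det := by
  unfold minor
  rw [AlgHom.map_det]
  congr 1
  ext j j'
  rw [AlgHom.mapMatrix_apply, Matrix.map_apply, Matrix.of_apply, aeval_lin]
  rfl

theorem rows_minor (lie : R →+* Matrix (Fin n) (Fin n) ℚ) {K : Type} [Field K] [Algebra ℚ K]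
    {m h : ℕ} (w : Fin m → Fin h → R) (v : Fin h × Fin n → K) :
    LinearIndependent K (rowv lie w v) ↔ ∃ c, aeval v (minor lie w c) ≠ 0 := by
  have h1 := rows_iff (Matrix.of (rowv lie w v))
  have h2 : (fun j => (Matrix.of (rowv lie w v)) j) = rowv lie w v := rfl
  rw [h2] at h1
  rw [h1]
  exact exists_congr fun c => by rw [aeval_minor]

/-- The family does not vanish identically. -/
theorem exists_minor_ne (lie : R →+* Matrix (Fin n) (Fin n) ℚ) (hn : 1 ≤ n)
    (hinj : Function.Injective lie) (hdom : ∀ r s : R, r * s = 0 → r = 0 ∨ s = 0)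
    {m h : ℕ} (hm : m ≤ n) (w : Fin m → Fin h → R)
    (hw : ∀ q : Fin m → ℤ, (∀ i, ∑ j, q j • w j i = 0) → q = 0) :
    ∃ c, minor lie w c ≠ 0 := by
  obtain ⟨t, ht⟩ := exists_vectors lie hn hinj hdom hm w hw
  have h1 : rowv lie w (fun i => t i.1 i.2) = fun j => ∑ i, (lie (w j i)).mulVec (t i) := by
    funext j
    unfold rowv
    refine Finset.sum_congr rfl fun i _ => ?_
    have h2 : (lie (w j i)).map (algebraMap ℚ ℚ) = lie (w j i) := by
      ext a b
      rfl
    rw [h2]
  rw [← h1] at ht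
  obtain ⟨c, hc⟩ := (rows_minor lie w (fun i => t i.1 i.2)).mp ht
  refine ⟨c, fun h0 => hc ?_⟩
  rw [h0, map_zero]

/-- **The main theorem on one subgroup.** -/
theorem main (hn : 1 ≤ n) (hM : Module.Finite ℤ M)
    (hdom : ∀ r s : R, r * s = 0 → r = 0 ∨ s = 0) (lie : R →+* Matrix (Fin n) (Fin n) ℚ)
    (hlie : Function.Injective lie) {h : ℕ} (x : Fin h → M) (hx : IsEndBasis R x)
    (L : AddSubgroup M) (hL : finrank ℤ L ≤ n) :
    ∃ G : (Fin (finrank ℤ L) → Fin n) → MvPolynomial (Fin h × Fin n) ℚ,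
      (∀ c, (G c).IsHomogeneous (finrank ℤ L)) ∧ (∃ c, G c ≠ 0) ∧
      ∀ (p : ℕ) [Fact p.Prime] (P : Type) [AddCommGroup P] [TopologicalSpace P]
        [IsTopologicalAddGroup P] [CompactSpace P] [T2Space P] (S : SimpleAV p n M R P),
        S.lie = lie →
          (HasZpRank p (L.map S.emb).topologicalClosure (finrank ℤ L) ↔
            ∃ c, aeval (fun i : Fin h × Fin n => S.lg (S.emb (x i.1)) i.2) (G c) ≠ 0) := by
  classical
  obtain ⟨y, hyL, hyi, K, hK, hmax⟩ := exists_family hM L
  have hcov : ∀ j, ∃ k : ℤ, k ≠ 0 ∧ ∃ r : Fin h → R, k • y j = ∑ i, r i • x i := fun j => hx.2 _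
  choose k hk w hw using hcov
  have hwind : ∀ q : Fin (finrank ℤ L) → ℤ, (∀ i, ∑ j, q j • w j i = 0) → q = 0 := by
    intro q hq
    have h1 : ∑ j, (q j * k j) • y j = 0 := by
      calc ∑ j, (q j * k j) • y j = ∑ j, q j • ∑ i, w j i • x i := by
            refine Finset.sum_congr rfl fun j _ => ?_
            rw [mul_smul, hw j]
        _ = ∑ j, ∑ i, (q j • w j i) • x i := by
            refine Finset.sum_congr rfl fun j _ => ?_
            rw [Finset.smul_sum]
            exact Finset.sum_congr rfl fun i _ => by rw [smul_assoc]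
        _ = ∑ i, ∑ j, (q j • w j i) • x i := Finset.sum_comm
        _ = ∑ i, (∑ j, q j • w j i) • x i :=
            Finset.sum_congr rfl fun i _ => by rw [Finset.sum_smul]
        _ = 0 := by
            refine Finset.sum_eq_zero fun i _ => ?_
            rw [hq i, zero_smul]
    have h2 := Fintype.linearIndependent_iff.mp hyi _ h1
    funext j
    exact (mul_eq_zero.mp (h2 j)).resolve_right (hk j)
  refine ⟨minor lie w, minor_hom lie w, exists_minor_ne lie hn hlie hdom hL w hwind, ?_⟩
  intro p _ P _ _ _ _ _ S hS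
  subst hS
  rw [← rows_minor S.lie w (fun i : Fin h × Fin n => S.lg (S.emb (x i.1)) i.2)]
  -- the rows are the multiples `k_j log y_j`
  have hrow : rowv S.lie w (fun i : Fin h × Fin n => S.lg (S.emb (x i.1)) i.2)
      = fun j => (k j : ℚ_[p]) • S.lg (S.emb (y j)) := by
    funext j
    have h1 := congrArg (fun z => S.lg (S.emb z)) (hw j)
    simp only [map_zsmul, map_sum] at h1
    rw [Int.cast_smul_eq_zsmul, h1]
    unfold rowv
    refine Finset.sum_congr rfl fun i _ => ?_
    rw [S.lg_smul]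
  have hunit : LinearIndependent ℚ_[p] (fun j => (k j : ℚ_[p]) • S.lg (S.emb (y j))) ↔
      LinearIndependent ℚ_[p] (fun j => S.lg (S.emb (y j))) := by
    rw [Fintype.linearIndependent_iff, Fintype.linearIndependent_iff]
    constructor
    · intro h1 g hg i
      have h2 := h1 (fun j => g j * (k j : ℚ_[p])⁻¹) (by
        rw [← hg]
        refine Finset.sum_congr rfl fun j _ => ?_
        have hkj : (k j : ℚ_[p]) ≠ 0 := by exact_mod_cast hk j
        rw [smul_smul, mul_assoc, inv_mul_cancel₀ hkj, mul_one]) i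
      have hki : (k i : ℚ_[p]) ≠ 0 := by exact_mod_cast hk i
      exact (mul_eq_zero.mp h2).resolve_right (inv_ne_zero hki)
    · intro h1 g hg i
      have h2 := h1 (fun j => g j * (k j : ℚ_[p])) (by
        rw [← hg]
        refine Finset.sum_congr rfl fun j _ => ?_
        rw [smul_smul]) i
      have hki : (k i : ℚ_[p]) ≠ 0 := by exact_mod_cast hk i
      exact (mul_eq_zero.mp h2).resolve_right hki
  rw [hrow, hunit]
  constructor
  · exact indep_of_hasZpRank S L y K hK hmax
  · intro h1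
    refine hasZpRank_of_indep S L y hyL K hK hmax fun a ha => ?_
    funext i
    exact Fintype.linearIndependent_iff.mp h1 a ha i

/-- Algebraic independence of the logarithms of a basis implies the positive answer. -/
theorem of_algebraicIndependent (hM : Module.Finite ℤ M)
    {h : ℕ} (x : Fin h → M) (hx : IsEndBasis R x)
    {p : ℕ} [Fact p.Prime] {P : Type} [AddCommGroup P] [TopologicalSpace P]
    [IsTopologicalAddGroup P] [CompactSpace P] [T2Space P] (S : SimpleAV p n M R P)
    (hS : AlgebraicIndependent ℚ (fun i : Fin h × Fin n => S.lg (S.emb (x i.1)) i.2))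
    (L : AddSubgroup M) (hL : finrank ℤ L ≤ n) :
    HasZpRank p (L.map S.emb).topologicalClosure (finrank ℤ L) := by
  obtain ⟨G, -, ⟨c, hc⟩, hG⟩ := main S.dim_pos hM S.end_domain S.lie S.lie_inj x hx L hL
  refine (hG p P S rfl).mpr ⟨c, fun h0 => hc ?_⟩
  exact (algebraicIndependent_iff.mp hS) _ h0

/-- The case of a prime at which the endomorphism algebra remains a division algebra. -/
theorem division_case {p : ℕ} [Fact p.Prime] {P : Type} [AddCommGroup P] [TopologicalSpace P]
    [IsTopologicalAddGroup P] [CompactSpace P] [T2Space P] (S : SimpleAV p n M R P)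
    (hdiv : ∀ B ∈ Submodule.span ℚ_[p]
        (Set.range fun r : R => (S.lie r).map (algebraMap ℚ ℚ_[p])), B ≠ 0 → IsUnit B)
    (x : M) (L : AddSubgroup M) (hL : ∀ y ∈ L, ∃ k : ℤ, k ≠ 0 ∧ ∃ r : R, k • y = r • x) :
    HasZpRank p (L.map S.emb).topologicalClosure (finrank ℤ L) := by
  classical
  obtain ⟨y, hyL, hyi, K, hK, hmax⟩ := exists_family S.mordellWeil L
  refine hasZpRank_of_indep S L y hyL K hK hmax ?_
  intro a ha
  have hcov : ∀ j, ∃ k : ℤ, k ≠ 0 ∧ ∃ r : R, k • y j = r • x := fun j => hL _ (hyL j)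
  choose k hk r hr using hcov
  have hkp : ∀ j, (k j : ℚ_[p]) ≠ 0 := fun j => by exact_mod_cast hk j
  -- the matrix `B` kills `log x`
  set B : Matrix (Fin n) (Fin n) ℚ_[p] :=
    ∑ j, (a j * (k j : ℚ_[p])⁻¹) • (S.lie (r j)).map (algebraMap ℚ ℚ_[p]) with hB
  have hBx : B.mulVec (S.lg (S.emb x)) = 0 := by
    rw [hB, Matrix.sum_mulVec, ← ha]
    refine Finset.sum_congr rfl fun j _ => ?_
    rw [Matrix.smul_mulVec, ← S.lg_smul, ← hr j, map_zsmul, map_zsmul,
      ← Int.cast_smul_eq_zsmul ℚ_[p], smul_smul, mul_assoc, inv_mul_cancel₀ (hkp j), mul_one]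
  have hBmem : B ∈ Submodule.span ℚ_[p]
      (Set.range fun r : R => (S.lie r).map (algebraMap ℚ ℚ_[p])) :=
    Submodule.sum_mem _ fun j _ => Submodule.smul_mem _ _ (Submodule.subset_span ⟨r j, rfl⟩)
  have hB0 : B = 0 := by
    by_contra hne
    obtain ⟨u, hu⟩ := hdiv B hBmem hne
    have h1 : S.lg (S.emb x) = 0 := by
      have h2 : (u⁻¹ : (Matrix (Fin n) (Fin n) ℚ_[p])ˣ).val.mulVec (B.mulVec (S.lg (S.emb x)))
          = S.lg (S.emb x) := by
        rw [Matrix.mulVec_mulVec, ← hu, Units.inv_mul, Matrix.one_mulVec]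
      rw [← h2, hBx, Matrix.mulVec_zero]
    -- then `x` is torsion, so are all elements of `L`
    have h2 := torsion_of_lg S x h1
    obtain ⟨t, ht, ht0⟩ := isOfFinAddOrder_iff_nsmul_eq_zero.mp h2
    apply hne
    rw [hB]
    refine Finset.sum_eq_zero fun j _ => ?_
    exfalso
    apply not_torsion_of_indep hyi j
    rw [isOfFinAddOrder_iff_nsmul_eq_zero]
    have h3 : (t : ℤ) • (k j • y j) = 0 := by
      rw [hr j, natCast_zsmul, ← smul_comm, ht0, smul_zero]
    rw [smul_smul] at h3
    have h4 : (t : ℤ) * k j ≠ 0 := mul_ne_zero (by exact_mod_cast ht.ne') (hk j)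
    refine ⟨((t : ℤ) * k j).natAbs, Int.natAbs_pos.mpr h4, ?_⟩
    rcases Int.natAbs_eq ((t : ℤ) * k j) with h5 | h5
    · rw [h5, natCast_zsmul] at h3; exact h3
    · rw [h5, neg_smul, natCast_zsmul, neg_eq_zero] at h3; exact h3
  -- independence of the matrices
  have hind : LinearIndependent ℚ (fun j => S.lie (r j)) := by
    rw [← LinearIndependent.iff_fractionRing ℤ ℚ, Fintype.linearIndependent_iff]
    intro q hq
    have h1 : ∑ j, q j • r j = 0 := by
      apply S.lie_inj
      rw [map_sum, map_zero, ← hq]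
      exact Finset.sum_congr rfl fun j _ => by rw [map_zsmul]
    have h2 : ∑ j, (q j * k j) • y j = 0 := by
      calc ∑ j, (q j * k j) • y j = ∑ j, (q j • r j) • x := by
            refine Finset.sum_congr rfl fun j _ => ?_
            rw [mul_smul, hr j, smul_assoc]
        _ = (∑ j, q j • r j) • x := by rw [Finset.sum_smul]
        _ = 0 := by rw [h1, zero_smul]
    have h3 := Fintype.linearIndependent_iff.mp hyi _ h2
    intro i
    exact (mul_eq_zero.mp (h3 i)).resolve_right (hk i)
  have h1 := indep_bc (fun j => S.lie (r j)) hind (fun j => a j * (k j : ℚ_[p])⁻¹) hB0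
  funext j
  exact (mul_eq_zero.mp (congrFun h1 j)).resolve_right (inv_ne_zero (hkp j))

end Pool.Agent.X298.DA
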