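import Pool.Agent.X298.DA.Dom
import Pool.Agent.X268.PC.Main

set_option autoImplicit false

namespace Pool.Agent.X298.DA

open Module

/-- The rows of a matrix are independent iff some maximal minor is nonzero. -/
theorem rows_iff {K : Type} [Field K] {m n : ℕ} (B : Matrix (Fin m) (Fin n) K) :
    LinearIndependent K (fun j => B j) ↔ ∃ c : Fin m → Fin n, (B.submatrix id c).det ≠ 0 := by
  classical
  constructor
  · intro hB
    -- the columns span
    have hrank : B.rank = m := by
      have := hB.rank_matrix
      rwa [Fintype.card_fin] at this
    have hcol : finrank K (Submodule.span K (Set.range B.col)) = m := by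
      rw [← Matrix.rank_eq_finrank_span_cols, hrank]
    have htop : Submodule.span K (Set.range B.col) = ⊤ := by
      apply Submodule.eq_top_of_finrank_eq
      rw [hcol, finrank_fin_fun]
    obtain ⟨κ, a, ha, hsp, hli⟩ := exists_linearIndependent' K B.col
    have hfin : Finite κ := Finite.of_injective a ha
    have : Fintype κ := Fintype.ofFinite κ
    have hcard : Fintype.card κ = m := by
      have h1 := finrank_span_eq_card hli
      rw [hsp, hcol] at h1
      exact h1.symm
    let e : Fin m ≃ κ := (Fintype.equivFinOfCardEq hcard).symm
    refine ⟨a ∘ e, ?_⟩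
    have h2 : LinearIndependent K (B.submatrix id (a ∘ e)).col := by
      have h3 : (B.submatrix id (a ∘ e)).col = (B.col ∘ a) ∘ e := rfl
      rw [h3]
      exact hli.comp e e.injective
    have h4 := Matrix.linearIndependent_cols_iff_isUnit.mp h2
    exact ((Matrix.isUnit_iff_isUnit_det _).mp h4).ne_zero
  · rintro ⟨c, hc⟩
    have h1 : IsUnit (B.submatrix id c) := by
      rw [Matrix.isUnit_iff_isUnit_det]
      exact isUnit_iff_ne_zero.mpr hc
    have h2 := Matrix.linearIndependent_rows_iff_isUnit.mpr h1
    rw [Fintype.linearIndependent_iff] at h2 ⊢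
    intro g hg
    refine h2 g ?_
    funext l
    have h3 := congrFun hg (c l)
    simpa [Finset.sum_apply, Matrix.row, Matrix.submatrix] using h3

end Pool.Agent.X298.DA
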